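import Pool.Agent.Lib.MP_edb5be_nt.EX.H22.Words
import Pool.Agent.Lib.MP_edb5be_nt.EX.H30.SumP
import Pool.Agent.Lib.MP_edb5be_nt.EX.H70.Phiw
import Pool.Agent.Lib.MP_edb5be_nt.PD.H9.Mix
import Pool.Agent.Lib.MP_edb5be_nt.PD.H9.Wgw
import Pool.Agent.Lib.MP_edb5be_nt.PD.H17.Cct
import Pool.Agent.Lib.MP_edb5be_nt.PD.H17.Class
import Pool.Agent.Lib.MP_edb5be_nt.PD.H17.Gcat
import Pool.Agent.Lib.MP_edb5be_nt.PD.H22.PLoc
import Pool.Agent.Lib.MP_edb5be_nt.PD.H23.Tail
import Pool.Agent.Lib.MP_edb5be_nt.PD.H26.Main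
import Pool.Agent.Lib.MP_edb5be_nt.PD.H30.Lift
import Pool.Agent.Lib.MP_edb5be_nt.PD.H43.Base
import Pool.Agent.Lib.MP_edb5be_nt.PD.H50.Induct
import Pool.Agent.Lib.MP_edb5be_nt.PD.H50.Split
import Pool.Agent.Lib.MP_edb5be_nt.PD.H54.Inj
import Pool.Agent.Lib.MP_edb5be_nt.PD.H57.Comp
import Pool.Agent.Lib.MP_edb5be_nt.PD.H57.Dens
import Pool.Agent.Lib.MP_edb5be_nt.PD.H57.Mean
import Pool.Agent.Lib.MP_edb5be_nt.PD.H57.UClassT
import Pool.Agent.Lib.MP_edb5be_nt.PD.H57.UCountT
import Pool.Agent.Lib.MP_edb5be_nt.PD.H65.Osc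
import Pool.Agent.Lib.MP_edb5be_nt.PD.H65.Step
import Pool.Agent.Lib.MP_edb5be_nt.PD.H65.Window
import Pool.Agent.Lib.MP_edb5be_nt.PD.H75.EwLow
import Pool.Agent.Lib.MP_edb5be_nt.PD.H92.Vlow
import Pool.Agent.Lib.MP_edb5be_nt.PD.H95.BwF
import Pool.Agent.Lib.MP_edb5be_nt.PD.H95.GMix
import Pool.Agent.Lib.MP_edb5be_nt.PD.H97.DensB
import Pool.Agent.Lib.MP_edb5be_nt.ND.H97.BinLoc
import Pool.Agent.Lib.MP_edb5be_nt.ND.H26.Main

/-!
Project PD (MP_edb5be_nt): assembly.
-/

set_option autoImplicit false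

namespace Pool.Agent.Lib.MP_edb5be_nt.PD

open Pool.Agent.Lib.MP_edb5be_nt.EX

theorem wordsT : WordsStatement := EX.H22.words

theorem meanT : MeanStatement := H57.mean EX.H30.sumP

theorem compT : CompStatement := H57.comp wordsT

theorem densT : DensStatement := H57.dens wordsT

theorem gcatT : GCatStatement := H17.gcat wordsT

theorem mixT : MixStatement := H9.mix EX.H70.phiw

theorem tailT : TailStatement := H23.tail

theorem cctT : CcTStatement := H17.cct

theorem wgwT : WGwStatement := H9.wgw gcatT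

theorem injT : InjStatement := H54.inj

theorem bwfT : BwFStatement := H95.bwF wordsT

theorem plocT : PLocStatement := H22.ploc bwfT ND.H97.binloc

theorem windowT : WindowStatement := H65.window

theorem liftT : LiftStatement := H30.lift wordsT

theorem oscT : OscStatement := H65.osc Pool.Agent.Lib.MP_0a5adf_nt.TP.joscT

theorem gmixT : GMixStatement := H95.gmix bwfT oscT liftT meanT

theorem densbT : DensBStatement := H97.densb densT

theorem splitT : SplitStatement := H50.split wordsT meanT compT tailT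

theorem stepT : StepStatement := H65.step meanT compT densT mixT splitT

theorem inductT : InductStatement := H50.induct stepT wgwT

theorem baseT : BaseStatement := H43.base wordsT meanT tailT cctT

theorem classT : ClassStatement := H17.clas wgwT inductT baseT

theorem vlowT : VLowStatement :=
  H92.vlow bwfT meanT gmixT windowT (H75.ewlow bwfT plocT windowT)

theorem uclasstT : UClassTStatement :=
  H57.uclasst wordsT meanT mixT classT windowT vlowT densbT

theorem ucounttT : UCountTStatement := H57.ucountt wordsT uclasstT injT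

theorem finalT : H26.FinalStatement := H26.final ND.zdenT (H26.main ND.zdenT ucounttT)

end Pool.Agent.Lib.MP_edb5be_nt.PD
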