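import Pool.Agent.Lib.MP_edb5be_nt.PD.H26.Main
import Pool.Agent.Lib.MP_edb5be_nt.H13.Lambda
import Pool.Agent.Lib.MP_edb5be_nt.H13.SparseExplicit

/-!
Basins of cycles: the density of the basin of a cycle is at least a constant times the sum of the
reciprocals of the absolute values of its elements, hence at least a constant times
`|p log 2 - k log 3|`.
-/

set_option autoImplicit false

namespace Pool.Agent.Lib.MP_edb5be_nt.PD.H26

open Function Finset Pool.Agent.Lib.MP_0a5adf_nt.TP Pool.Agent.Lib.MP_edb5be_nt.EX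

theorem T_eq' : H13.T = Tc := rfl

/-- the side preimage of `T y`, for odd `y` -/
def side (y : ℤ) : ℤ := 3 * y + 1

theorem T_side {y : ℤ} (h : y % 2 ≠ 0) : Tc (side y) = Tc y := by
  unfold side Tc
  split_ifs <;> omega

theorem side_ne (y : ℤ) : side y ≠ y := by
  unfold side
  omega

/-- elements of the cycle of `x` -/
theorem inj_on_cycle {x : ℤ} (hx : x ∈ periodicPts Tc) {a b : ℤ} (ha : a ∈ H13.orb x)
    (hb : b ∈ H13.orb x) (h : Tc a = Tc b) : a = b := by
  have ha' : a ∈ periodicPts H13.T := (H13.mem_orb_symm hx ha).1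
  have hb' : b ∈ periodicPts H13.T := (H13.mem_orb_symm hx hb).1
  exact (bijOn_periodicPts H13.T).injOn ha' hb' h

theorem side_not_mem {x : ℤ} (hx : x ∈ periodicPts Tc) {y : ℤ} (hy : y ∈ H13.orb x)
    (h : y % 2 ≠ 0) : side y ∉ H13.orb x := fun hs =>
  side_ne y (inj_on_cycle hx hs hy (T_side h))

theorem iterate_mem_orb {x y : ℤ} (hx : x ∈ periodicPts Tc) (hy : y ∈ H13.orb x) (i : ℕ) :
    Tc^[i] y ∈ H13.orb x := by
  obtain ⟨j, rfl⟩ := (H13.mem_orb (x := x) hx).1 hy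
  exact (H13.mem_orb (x := x) hx).2 ⟨i + j, iterate_add_apply _ _ _ _⟩

theorem iterate_side {x y : ℤ} (hx : x ∈ periodicPts Tc) (hy : y ∈ H13.orb x) (h : y % 2 ≠ 0)
    (i : ℕ) : Tc^[i + 1] (side y) ∈ H13.orb x := by
  rw [iterate_succ_apply, T_side h, ← iterate_succ_apply]
  exact iterate_mem_orb hx hy (i + 1)

/-- the side trees are disjoint -/
theorem side_disj {x : ℤ} (hx : x ∈ periodicPts Tc) {y z : ℤ} (hy : y ∈ H13.orb x)
    (hz : z ∈ H13.orb x) (h : y % 2 ≠ 0) (h' : z % 2 ≠ 0) (hne : y ≠ z) :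
    Disjoint (Pr (side y)) (Pr (side z)) := by
  have key : ∀ y z : ℤ, y ∈ H13.orb x → z ∈ H13.orb x → y % 2 ≠ 0 → z % 2 ≠ 0 → y ≠ z →
      ∀ (n : ℤ) (i j : ℕ), i ≤ j → Tc^[i] n = side y → Tc^[j] n = side z → False := by
    intro y z hy hz h h' hne n i j hij h1 h2
    obtain ⟨r, rfl⟩ := Nat.exists_eq_add_of_le hij
    rw [Nat.add_comm, iterate_add_apply, h1] at h2
    rcases r with _ | r
    · have h3 : side y = side z := h2
      unfold side at h3
      omega
    · exact side_not_mem hx hz h' (h2 ▸ iterate_side hx hy h r)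
  rw [Set.disjoint_left]
  rintro n ⟨i, hi⟩ ⟨j, hj⟩
  rcases le_total i j with hij | hij
  · exact key y z hy hz h h' hne n i j hij hi hj
  · exact key z y hz hy h' h hne.symm n j i hij hj hi

theorem box_finite (d : Bool) (S : Set ℤ) (X : ℝ) :
    {x : ℤ | x ∈ S ∧ 0 < sg d * x ∧ ((sg d * x : ℤ) : ℝ) ≤ X}.Finite := by
  refine (Set.finite_Icc (-⌈X⌉) ⌈X⌉).subset ?_
  rintro x ⟨-, h1, h2⟩
  have h3 : sg d * x ≤ ⌈X⌉ := by exact_mod_cast h2.trans (Int.le_ceil X)
  rw [Set.mem_Icc]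
  rcases H74.sg_cases d with e | e <;> rw [e] at h1 h3 <;> constructor <;> linarith

theorem cnt_union {d : Bool} {A B : Set ℤ} (h : Disjoint A B) (X : ℝ) :
    ND.cnt d (A ∪ B) X = ND.cnt d A X + ND.cnt d B X := by
  unfold ND.cnt
  rw [← Nat.cast_add, ← Set.ncard_union_eq _ (box_finite d A X) (box_finite d B X)]
  · congr 2
    ext x
    simp only [Set.mem_union, Set.mem_setOf_eq]
    tauto
  · rw [Set.disjoint_left] at h ⊢
    rintro x ⟨h1, -⟩ ⟨h2, -⟩
    exact h h1 h2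

theorem cnt_mono {d : Bool} {A B : Set ℤ} (h : A ⊆ B) (X : ℝ) : ND.cnt d A X ≤ ND.cnt d B X := by
  unfold ND.cnt
  have h1 : {x : ℤ | x ∈ A ∧ 0 < sg d * x ∧ ((sg d * x : ℤ) : ℝ) ≤ X} ⊆
      {x : ℤ | x ∈ B ∧ 0 < sg d * x ∧ ((sg d * x : ℤ) : ℝ) ≤ X} :=
    fun x hx => ⟨h hx.1, hx.2⟩
  exact_mod_cast Set.ncard_le_ncard h1 (box_finite d B X)

/-- a finite disjoint family inside `S` -/
theorem sum_cnt_le {ι : Type} [DecidableEq ι] {d : Bool} (S : Set ℤ) (A : ι → Set ℤ)
    (I : Finset ι) (hS : ∀ i ∈ I, A i ⊆ S)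
    (hd : ∀ i ∈ I, ∀ j ∈ I, i ≠ j → Disjoint (A i) (A j)) (X : ℝ) :
    ∑ i ∈ I, ND.cnt d (A i) X ≤ ND.cnt d S X := by
  have key : ∀ J ⊆ I, ∑ i ∈ J, ND.cnt d (A i) X = ND.cnt d (⋃ i ∈ J, A i) X := by
    intro J
    induction J using Finset.induction_on with
    | empty =>
      intro _
      unfold ND.cnt
      simp
    | insert a J ha ih =>
      intro hJ
      rw [Finset.sum_insert ha, ih ((Finset.subset_insert a J).trans hJ), ← cnt_union]
      · congr 1
        ext x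
        simp
      · rw [Set.disjoint_iUnion₂_right]
        intro j hj
        refine hd a (hJ (Finset.mem_insert_self a J)) j (hJ (Finset.mem_insert_of_mem hj)) ?_
        rintro rfl
        exact ha hj
  rw [key I (Finset.Subset.refl I)]
  exact cnt_mono (Set.iUnion₂_subset hS) X

/-- densities of a finite disjoint family -/
theorem sum_dens_le {ι : Type} [DecidableEq ι] {d : Bool} (S : Set ℤ) (A : ι → Set ℤ)
    (I : Finset ι) (hS : ∀ i ∈ I, A i ⊆ S)
    (hd : ∀ i ∈ I, ∀ j ∈ I, i ≠ j → Disjoint (A i) (A j)) (D : ι → ℝ) (D' : ℝ)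
    (hD : ∀ i ∈ I, ND.HasDens d (A i) (D i)) (hD' : ND.HasDens d S D') :
    ∑ i ∈ I, D i ≤ D' := by
  have h1 : Filter.Tendsto (fun X : ℝ => ∑ i ∈ I, ND.cnt d (A i) X / X) Filter.atTop
      (nhds (∑ i ∈ I, D i)) := tendsto_finsetSum I hD
  refine le_of_tendsto_of_tendsto h1 hD' ?_
  filter_upwards [Filter.eventually_gt_atTop (0 : ℝ)] with X hX
  rw [← Finset.sum_div]
  exact div_le_div_of_nonneg_right (sum_cnt_le S A I hS hd X) hX.le

/-- the even elements of a cycle do not count for more than the odd ones -/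
theorem sum_odd {x : ℤ} (hx : x ∈ periodicPts Tc) (hx0 : x ≠ 0) :
    ∑ y ∈ H13.orb x, 1 / |(y : ℝ)| ≤
      2 * ∑ y ∈ (H13.orb x).filter (fun y => y % 2 ≠ 0), 1 / |(y : ℝ)| := by
  have himg := H13.orb_image (x := x) hx
  have hinj : Set.InjOn H13.T (H13.orb x : Set ℤ) := fun a ha b hb h =>
    inj_on_cycle hx ha hb h
  have h1 : ∑ y ∈ H13.orb x, 1 / |((H13.T y : ℤ) : ℝ)| = ∑ y ∈ H13.orb x, 1 / |(y : ℝ)| := by
    conv_rhs => rw [← himg]
    rw [Finset.sum_image hinj]
  have h0 : ∀ y ∈ H13.orb x, y ≠ 0 := by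
    intro y hy
    obtain ⟨j, rfl⟩ := (H13.mem_orb (x := x) hx).1 hy
    exact H13.iterate_ne_zero hx0 j
  have h2 : ∀ y ∈ (H13.orb x).filter (fun y => y % 2 = 0),
      1 / |((H13.T y : ℤ) : ℝ)| = 2 * (1 / |(y : ℝ)|) := by
    intro y hy
    obtain ⟨hy1, hy2⟩ := Finset.mem_filter.1 hy
    have e1 : (2 : ℝ) * (H13.T y : ℝ) = y := by exact_mod_cast H13.two_mul_T_even hy2
    have e2 : ((H13.T y : ℤ) : ℝ) = y / 2 := by linarith
    have hy0 : |(y : ℝ)| ≠ 0 := abs_ne_zero.2 (by exact_mod_cast h0 y hy1)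
    rw [e2, abs_div, abs_of_pos (by norm_num : (0 : ℝ) < 2)]
    field_simp
  have h3 := Finset.sum_filter_add_sum_filter_not (H13.orb x) (fun y => y % 2 = 0)
    (fun y => 1 / |(y : ℝ)|)
  have h4 := Finset.sum_filter_add_sum_filter_not (H13.orb x) (fun y => y % 2 = 0)
    (fun y => 1 / |((H13.T y : ℤ) : ℝ)|)
  rw [h1, Finset.sum_congr rfl h2, ← Finset.mul_sum] at h4
  have h5 : 0 ≤ ∑ y ∈ (H13.orb x).filter (fun y => ¬ y % 2 = 0), 1 / |((H13.T y : ℤ) : ℝ)| :=
    Finset.sum_nonneg fun y _ => by positivity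
  simp only [ne_eq]
  linarith

theorem card_par (x : ℤ) :
    ((Finset.range (minimalPeriod H13.T x)).filter fun j => H13.T^[j] x % 2 = 1).card =
      (H13.par (minimalPeriod H13.T x) x).card := by
  unfold H13.par
  congr 1
  refine Finset.filter_congr fun j _ => ?_
  omega

/-- **Basins of cycles.** -/
theorem cyc (h : FinalStatement) : ∃ c : ℝ, 0 < c ∧ ∀ (d : Bool) (S : Set ℤ) (x : ℤ),
    (∀ n : ℤ, n ∈ S ↔ Tc n ∈ S) → x ∈ S → 0 < sg d * x → ∃ D : ℝ, ND.HasDens d S D ∧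
      c / |(x : ℝ)| ≤ D ∧
      c * ∑ j ∈ range (minimalPeriod Tc x), 1 / |(Tc^[j] x : ℝ)| ≤ D ∧
      c * |H13.lam x| ≤ D := by
  obtain ⟨c, K, hc, -, H⟩ := h
  refine ⟨c / 8, by positivity, fun d S x hS hxS hsg => ?_⟩
  obtain ⟨D, hD1, hD⟩ := (H d).2 S x hS hxS hsg
  have hx0 : x ≠ 0 := by
    rintro rfl
    simp at hsg
  have habs : 0 < |(x : ℝ)| := abs_pos.2 (by exact_mod_cast hx0)
  have hD0 : 0 ≤ D := le_trans (by positivity) hD1
  have main : c / 8 * ∑ j ∈ range (minimalPeriod Tc x), 1 / |(Tc^[j] x : ℝ)| ≤ D := by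
    by_cases hx : x ∈ periodicPts Tc
    · have hsum : ∑ j ∈ range (minimalPeriod Tc x), 1 / |(Tc^[j] x : ℝ)| =
          ∑ y ∈ H13.orb x, 1 / |(y : ℝ)| := H13.sum_orb x
      rw [hsum]
      have hfwd : ∀ (j : ℕ) (n : ℤ), n ∈ S ↔ Tc^[j] n ∈ S := by
        intro j
        induction j with
        | zero => intro n; rfl
        | succ j ih =>
          intro n
          rw [hS n, ih (Tc n), Function.iterate_succ_apply]
      have hsgn : ∀ y ∈ H13.orb x, 0 < sg d * y := by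
        intro y hy
        obtain ⟨j, rfl⟩ := (H13.mem_orb (x := x) hx).1 hy
        clear hy
        induction j with
        | zero => exact hsg
        | succ j ih =>
          rw [iterate_succ_apply']
          have e : ∀ z : ℤ, H13.T z = if z % 2 = 0 then z / 2 else (3 * z + 1) / 2 := fun _ => rfl
          rw [e]
          rcases H74.sg_cases d with e | e <;> rw [e] at ih ⊢ <;> split_ifs <;> omega
      set O := (H13.orb x).filter (fun y => y % 2 ≠ 0) with hO
      have hDy : ∀ y ∈ O, ∃ D' : ℝ, c / |((side y : ℤ) : ℝ)| ≤ D' ∧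
          ND.HasDens d (Pr (side y)) D' := by
        intro y hy
        obtain ⟨hy1, hy2⟩ := Finset.mem_filter.1 hy
        refine ((H d).1 (side y) ?_ ?_).1
        · have := hsgn y hy1
          unfold side
          rcases H74.sg_cases d with e | e <;> rw [e] at this ⊢ <;> omega
        · unfold side
          omega
      choose! Dy hDy1 hDy2 using hDy
      have h1 : ∑ y ∈ O, Dy y ≤ D := by
        refine sum_dens_le S (fun y => Pr (side y)) O ?_ ?_ Dy D hDy2 hD
        · intro y hy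
          obtain ⟨hy1, hy2⟩ := Finset.mem_filter.1 hy
          rintro n ⟨k, hk⟩
          have h2 : Tc^[1] (Tc^[k] n) ∈ H13.orb x := by
            rw [hk]
            exact iterate_side hx hy1 hy2 0
          obtain ⟨j, hj⟩ := (H13.mem_orb (x := x) hx).1 h2
          rw [hfwd k n, hfwd 1 (Tc^[k] n), ← hj]
          exact (hfwd j x).1 hxS
        · intro y hy z hz hne
          obtain ⟨hy1, hy2⟩ := Finset.mem_filter.1 hy
          obtain ⟨hz1, hz2⟩ := Finset.mem_filter.1 hz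
          exact side_disj hx hy1 hz1 hy2 hz2 hne
      have h2 : c / 4 * ∑ y ∈ O, 1 / |(y : ℝ)| ≤ ∑ y ∈ O, Dy y := by
        rw [Finset.mul_sum]
        refine Finset.sum_le_sum fun y hy => le_trans ?_ (hDy1 y hy)
        obtain ⟨hy1, hy2⟩ := Finset.mem_filter.1 hy
        have hy0 : y ≠ 0 := by rintro rfl; exact hy2 rfl
        have h3 : (1 : ℝ) ≤ |(y : ℝ)| := by exact_mod_cast Int.one_le_abs hy0
        have h4 : |((side y : ℤ) : ℝ)| ≤ 4 * |(y : ℝ)| := by
          unfold side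
          push_cast
          refine (abs_add_le _ _).trans ?_
          rw [abs_mul, abs_one, abs_of_pos (by norm_num : (0 : ℝ) < 3)]
          linarith
        have h5 : 0 < |((side y : ℤ) : ℝ)| := by
          refine abs_pos.2 ?_
          unfold side
          have : 3 * y + 1 ≠ 0 := by omega
          exact_mod_cast this
        have h6 : c / 4 * (1 / |(y : ℝ)|) = c / (4 * |(y : ℝ)|) := by
          rw [mul_one_div, div_div]
        rw [h6]
        exact div_le_div_of_nonneg_left hc.le h5 h4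
      have h3 := sum_odd hx hx0
      calc c / 8 * ∑ y ∈ H13.orb x, 1 / |(y : ℝ)| ≤
            c / 8 * (2 * ∑ y ∈ O, 1 / |(y : ℝ)|) := mul_le_mul_of_nonneg_left h3 (by positivity)
        _ = c / 4 * ∑ y ∈ O, 1 / |(y : ℝ)| := by ring
        _ ≤ D := h2.trans h1
    · have h0 : minimalPeriod Tc x = 0 := minimalPeriod_eq_zero_of_notMem_periodicPts hx
      rw [h0, Finset.range_zero, Finset.sum_empty, mul_zero]
      exact hD0
  refine ⟨D, hD, le_trans ?_ hD1, main, le_trans ?_ main⟩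
  · exact div_le_div_of_nonneg_right (by linarith) habs.le
  · exact mul_le_mul_of_nonneg_left (H13.abs_lam_le hx0) (by positivity)

/-! ## all trajectories -/

theorem iter_per {x : ℤ} {i j : ℕ} (hij : i ≤ j) (h : Tc^[i] x ∈ periodicPts Tc) :
    Tc^[j] x ∈ periodicPts Tc := by
  obtain ⟨r, rfl⟩ := Nat.exists_eq_add_of_le hij
  rw [Nat.add_comm, iterate_add_apply]
  exact (bijOn_periodicPts Tc).mapsTo.iterate r h

/-- equal terms of a trajectory with different indices are periodic -/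
theorem per_of_eq {x : ℤ} {i j : ℕ} (hij : i < j) (h : Tc^[i] x = Tc^[j] x) :
    Tc^[i] x ∈ periodicPts Tc := by
  refine mk_mem_periodicPts (n := j - i) (by omega) ?_
  rw [IsPeriodicPt, IsFixedPt, ← iterate_add_apply, show j - i + i = j by omega, h]

theorem side_disj' {x : ℤ} {i j : ℕ} (hi : Tc^[i + 1] x ∉ periodicPts Tc)
    (hj : Tc^[j + 1] x ∉ periodicPts Tc) (h : Tc^[i] x % 2 ≠ 0) (h' : Tc^[j] x % 2 ≠ 0)
    (hne : i ≠ j) : Disjoint (Pr (side (Tc^[i] x))) (Pr (side (Tc^[j] x))) := by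
  have key : ∀ i j : ℕ, Tc^[i + 1] x ∉ periodicPts Tc → Tc^[j + 1] x ∉ periodicPts Tc →
      Tc^[i] x % 2 ≠ 0 → Tc^[j] x % 2 ≠ 0 → i ≠ j →
      ∀ (n : ℤ) (a b : ℕ), a ≤ b → Tc^[a] n = side (Tc^[i] x) → Tc^[b] n = side (Tc^[j] x) →
      False := by
    intro i j hi hj h h' hne n a b hab h1 h2
    obtain ⟨r, rfl⟩ := Nat.exists_eq_add_of_le hab
    rw [Nat.add_comm, iterate_add_apply, h1] at h2
    have hdist : ∀ u v : ℕ, u < v → Tc^[u] x ∉ periodicPts Tc → Tc^[u] x ≠ Tc^[v] x :=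
      fun u v huv hu he => hu (per_of_eq huv he)
    rcases r with _ | r
    · have h3 : side (Tc^[i] x) = side (Tc^[j] x) := h2
      have h4 : Tc^[i] x = Tc^[j] x := by
        unfold side at h3
        omega
      rcases Nat.lt_or_ge i j with h5 | h5
      · exact hi (iter_per (Nat.le_succ i) (per_of_eq h5 h4))
      · exact hj (iter_per (Nat.le_succ j) (per_of_eq (by omega) h4.symm))
    · -- the side of `j` is a later term of the trajectory
      have h3 : Tc^[i + 1 + r] x = side (Tc^[j] x) := by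
        rw [Nat.add_comm, iterate_add_apply, ← h2, iterate_succ_apply Tc r, T_side h,
          ← iterate_succ_apply' Tc i x]
      have h4 : Tc^[i + 1 + r + 1] x = Tc^[j + 1] x := by
        rw [iterate_succ_apply' Tc (i + 1 + r), h3, T_side h', ← iterate_succ_apply' Tc j x]
      have h5 : i + 1 + r = j := by
        rcases Nat.lt_trichotomy (i + 1 + r + 1) (j + 1) with h6 | h6 | h6
        · exact absurd (iter_per h6.le (per_of_eq h6 h4)) hj
        · omega
        · exact absurd (per_of_eq h6 h4.symm) hj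
      rw [h5] at h3
      exact side_ne _ h3.symm
  rw [Set.disjoint_left]
  rintro n ⟨a, ha⟩ ⟨b, hb⟩
  rcases le_total a b with hab | hab
  · exact key i j hi hj h h' hne n a b hab ha hb
  · exact key j i hj hi h' h hne.symm n b a hab hb ha

theorem sg_iter {d : Bool} {x : ℤ} (hsg : 0 < sg d * x) (j : ℕ) : 0 < sg d * Tc^[j] x := by
  induction j with
  | zero => exact hsg
  | succ j ih =>
    rw [iterate_succ_apply']
    have e : ∀ z : ℤ, Tc z = if z % 2 = 0 then z / 2 else (3 * z + 1) / 2 := fun _ => rfl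
    rw [e]
    rcases H74.sg_cases d with e | e <;> rw [e] at ih ⊢ <;> split_ifs <;> omega

theorem inv_iter {S : Set ℤ} (hS : ∀ n : ℤ, n ∈ S ↔ Tc n ∈ S) (j : ℕ) (n : ℤ) :
    n ∈ S ↔ Tc^[j] n ∈ S := by
  induction j generalizing n with
  | zero => rfl
  | succ j ih => rw [hS n, ih (Tc n), Function.iterate_succ_apply]

/-- even terms do not count for more than the odd ones and the last term -/
theorem sum_odd' {x : ℤ} (hx : x ≠ 0) (M : ℕ) :
    ∑ j ∈ range M, 1 / |(Tc^[j] x : ℝ)| ≤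
      2 * ∑ j ∈ (range M).filter (fun j => Tc^[j] x % 2 ≠ 0), 1 / |(Tc^[j] x : ℝ)| +
        1 / |(Tc^[M] x : ℝ)| := by
  induction M with
  | zero =>
    simp only [range_zero, sum_empty, filter_empty, mul_zero, zero_add]
    positivity
  | succ M ih =>
    have h0 : Tc^[M] x ≠ 0 := H13.iterate_ne_zero hx M
    have h1 : (0 : ℝ) < |(Tc^[M] x : ℝ)| := abs_pos.2 (by exact_mod_cast h0)
    rw [sum_range_succ, range_add_one, filter_insert]
    by_cases hM : Tc^[M] x % 2 = 0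
    · rw [if_neg (by simpa using hM)]
      have e1 : (2 : ℝ) * ((H13.T (Tc^[M] x) : ℤ) : ℝ) = (Tc^[M] x : ℤ) := by
        exact_mod_cast H13.two_mul_T_even hM
      have e2 : ((Tc^[M + 1] x : ℤ) : ℝ) = ((Tc^[M] x : ℤ) : ℝ) / 2 := by
        rw [iterate_succ_apply']
        have : ((Tc (Tc^[M] x) : ℤ) : ℝ) = ((H13.T (Tc^[M] x) : ℤ) : ℝ) := rfl
        rw [this]
        linarith
      rw [e2, abs_div, abs_of_pos (by norm_num : (0 : ℝ) < 2)]
      have e3 : 1 / (|((Tc^[M] x : ℤ) : ℝ)| / 2) = 2 * (1 / |((Tc^[M] x : ℤ) : ℝ)|) := by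
        field_simp
      rw [e3]
      linarith
    · rw [if_pos (by simpa using hM), sum_insert (by simp)]
      have h2 : (0 : ℝ) ≤ 1 / |((Tc^[M + 1] x : ℤ) : ℝ)| := by positivity
      linarith

/-- the part before the cycle -/
theorem pre {c K : ℝ} (hc : 0 < c) {d : Bool} (H :
      (∀ x : ℤ, 0 < sg d * x → ¬ (3 : ℤ) ∣ x →
        (∃ D : ℝ, c / |(x : ℝ)| ≤ D ∧ ND.HasDens d (Pr x) D) ∧
        ∀ X : ℝ, |(x : ℝ)| ≤ X → c * (X / |(x : ℝ)|) ≤ ND.cnt d (PrT K x X) X) ∧
      ∀ (S : Set ℤ) (x : ℤ), (∀ n : ℤ, n ∈ S ↔ Tc n ∈ S) → x ∈ S → 0 < sg d * x →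
        ∃ D : ℝ, c / |(x : ℝ)| ≤ D ∧ ND.HasDens d S D)
    {S : Set ℤ} {x : ℤ} (hS : ∀ n : ℤ, n ∈ S ↔ Tc n ∈ S) (hxS : x ∈ S) (hsg : 0 < sg d * x)
    {D : ℝ} (hD : ND.HasDens d S D) (M : ℕ) (hM : ∀ i < M, Tc^[i] x ∉ periodicPts Tc) :
    c / 11 * ∑ j ∈ range M, 1 / |(Tc^[j] x : ℝ)| ≤ D := by
  have hx0 : x ≠ 0 := by
    rintro rfl
    simp at hsg
  have hone : ∀ j : ℕ, c * (1 / |(Tc^[j] x : ℝ)|) ≤ D := by
    intro j
    obtain ⟨D', h1, h2⟩ := H.2 S (Tc^[j] x) hS ((inv_iter hS j x).1 hxS) (sg_iter hsg j)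
    have h3 : D' = D := tendsto_nhds_unique h2 hD
    rw [← h3, mul_one_div]
    exact h1
  have hpos : 0 ≤ D := by
    refine le_trans ?_ (hone 0)
    positivity
  rcases Nat.eq_zero_or_pos M with rfl | hMpos
  · rw [range_zero, sum_empty, mul_zero]
    exact hpos
  obtain ⟨N, rfl⟩ : ∃ N, M = N + 1 := ⟨M - 1, by omega⟩
  -- the side trees at the odd terms before the last one
  set O := (range N).filter (fun j => Tc^[j] x % 2 ≠ 0) with hO
  have hDy : ∀ j ∈ O, ∃ D' : ℝ, c / |((side (Tc^[j] x) : ℤ) : ℝ)| ≤ D' ∧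
      ND.HasDens d (Pr (side (Tc^[j] x))) D' := by
    intro j hj
    obtain ⟨-, hj2⟩ := Finset.mem_filter.1 hj
    refine (H.1 (side (Tc^[j] x)) ?_ ?_).1
    · have := sg_iter hsg j
      unfold side
      rcases H74.sg_cases d with e | e <;> rw [e] at this ⊢ <;> omega
    · unfold side
      omega
  choose! Dy hDy1 hDy2 using hDy
  have h1 : ∑ j ∈ O, Dy j ≤ D := by
    refine sum_dens_le S (fun j => Pr (side (Tc^[j] x))) O ?_ ?_ Dy D hDy2 hD
    · intro j hj
      obtain ⟨-, hj2⟩ := Finset.mem_filter.1 hj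
      rintro n ⟨k, hk⟩
      have h7 := (inv_iter hS (j + 1) x).1 hxS
      rw [iterate_succ_apply'] at h7
      rw [inv_iter hS k n, hk, hS, T_side hj2]
      exact h7
    · intro i hi j hj hne
      obtain ⟨hi1, hi2⟩ := Finset.mem_filter.1 hi
      obtain ⟨hj1, hj2⟩ := Finset.mem_filter.1 hj
      rw [mem_range] at hi1 hj1
      exact side_disj' (hM (i + 1) (by omega)) (hM (j + 1) (by omega)) hi2 hj2 hne
  have h2 : c / 4 * ∑ j ∈ O, 1 / |(Tc^[j] x : ℝ)| ≤ ∑ j ∈ O, Dy j := by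
    rw [Finset.mul_sum]
    refine Finset.sum_le_sum fun j hj => le_trans ?_ (hDy1 j hj)
    have hy0 : Tc^[j] x ≠ 0 := H13.iterate_ne_zero hx0 j
    have h3 : (1 : ℝ) ≤ |(Tc^[j] x : ℝ)| := by exact_mod_cast Int.one_le_abs hy0
    have h4 : |((side (Tc^[j] x) : ℤ) : ℝ)| ≤ 4 * |(Tc^[j] x : ℝ)| := by
      unfold side
      push_cast
      refine (abs_add_le _ _).trans ?_
      rw [abs_mul, abs_one, abs_of_pos (by norm_num : (0 : ℝ) < 3)]
      linarith
    have h5 : 0 < |((side (Tc^[j] x) : ℤ) : ℝ)| := by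
      refine abs_pos.2 ?_
      unfold side
      have : 3 * Tc^[j] x + 1 ≠ 0 := by omega
      exact_mod_cast this
    have h6 : c / 4 * (1 / |(Tc^[j] x : ℝ)|) = c / (4 * |(Tc^[j] x : ℝ)|) := by
      rw [mul_one_div, div_div]
    rw [h6]
    exact div_le_div_of_nonneg_left hc.le h5 h4
  have h3 := sum_odd' hx0 (N + 1)
  rw [range_add_one, filter_insert] at h3
  have h4 : ∑ j ∈ (if Tc^[N] x % 2 ≠ 0 then insert N ((range N).filter
      (fun j => Tc^[j] x % 2 ≠ 0)) else (range N).filter (fun j => Tc^[j] x % 2 ≠ 0)),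
      1 / |(Tc^[j] x : ℝ)| ≤ ∑ j ∈ O, 1 / |(Tc^[j] x : ℝ)| + 1 / |(Tc^[N] x : ℝ)| := by
    split_ifs
    · rw [sum_insert (by simp)]
      linarith
    · have : (0 : ℝ) ≤ 1 / |(Tc^[N] x : ℝ)| := by positivity
      linarith
  have h5 := hone N
  have h6 := hone (N + 1)
  rw [range_add_one]
  nlinarith

/-- **All trajectories.** -/
theorem traj (h : FinalStatement) : ∃ c : ℝ, 0 < c ∧ ∀ (d : Bool) (S : Set ℤ) (x : ℤ),
    (∀ n : ℤ, n ∈ S ↔ Tc n ∈ S) → x ∈ S → 0 < sg d * x → ∃ D : ℝ, ND.HasDens d S D ∧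
      (∀ A : Finset ℤ, (∀ y ∈ A, ∃ i : ℕ, Tc^[i] x = y) → c * ∑ y ∈ A, 1 / |(y : ℝ)| ≤ D) ∧
      c * |H13.lam x| ≤ D := by
  classical
  obtain ⟨c₁, hc₁, H₁⟩ := cyc h
  obtain ⟨c₂, K, hc₂, -, H₂⟩ := h
  have hc : 0 < min c₁ (c₂ / 11) / 2 := by
    have : 0 < min c₁ (c₂ / 11) := lt_min hc₁ (by positivity)
    linarith
  refine ⟨min c₁ (c₂ / 11) / 2, hc, fun d S x hS hxS hsg => ?_⟩
  obtain ⟨D, hD, hD1, hD2, hD3⟩ := H₁ d S x hS hxS hsg
  have hm1 : min c₁ (c₂ / 11) ≤ c₁ := min_le_left _ _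
  have hm2 : min c₁ (c₂ / 11) ≤ c₂ / 11 := min_le_right _ _
  have hD0 : 0 ≤ D := le_trans (by positivity) hD1
  refine ⟨D, hD, fun A hA => ?_, ?_⟩
  · have hx0 : x ≠ 0 := by
      rintro rfl
      simp at hsg
    have hsplit := Finset.sum_filter_add_sum_filter_not A (fun y => y ∈ periodicPts Tc)
      (fun y => 1 / |(y : ℝ)|)
    have hper : c₁ * ∑ y ∈ A.filter (fun y => y ∈ periodicPts Tc), 1 / |(y : ℝ)| ≤ D := by
      rcases (A.filter (fun y => y ∈ periodicPts Tc)).eq_empty_or_nonempty with he | ⟨z, hz⟩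
      · rw [he, sum_empty, mul_zero]
        exact hD0
      · obtain ⟨hz1, hz2⟩ := Finset.mem_filter.1 hz
        obtain ⟨i, hi⟩ := hA z hz1
        obtain ⟨D', h1, -, h2, -⟩ := H₁ d S z hS (hi ▸ (inv_iter hS i x).1 hxS)
          (hi ▸ sg_iter hsg i)
        have h3 : D' = D := tendsto_nhds_unique h1 hD
        rw [← h3]
        refine le_trans (mul_le_mul_of_nonneg_left ?_ hc₁.le) h2
        have hsum : ∑ j ∈ range (minimalPeriod Tc z), 1 / |(Tc^[j] z : ℝ)| =
          ∑ y ∈ H13.orb z, 1 / |(y : ℝ)| := H13.sum_orb z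
        rw [hsum]
        refine sum_le_sum_of_subset_of_nonneg ?_ fun _ _ _ => by positivity
        intro y hy
        obtain ⟨hy1, hy2⟩ := Finset.mem_filter.1 hy
        obtain ⟨j, hj⟩ := hA y hy1
        rcases le_total i j with hij | hij
        · refine (H13.mem_orb (x := z) hz2).2 ⟨j - i, ?_⟩
          have : Tc^[j - i] z = y := by
            rw [← hi, ← iterate_add_apply, show j - i + i = j by omega, hj]
          exact this
        · have h4 : z ∈ H13.orb y := by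
            refine (H13.mem_orb (x := y) hy2).2 ⟨i - j, ?_⟩
            have : Tc^[i - j] y = z := by
              rw [← hj, ← iterate_add_apply, show i - j + j = i by omega, hi]
            exact this
          exact (H13.mem_orb_symm (x := y) hy2 h4).2
    have hnon : c₂ / 11 * ∑ y ∈ A.filter (fun y => ¬ y ∈ periodicPts Tc), 1 / |(y : ℝ)| ≤ D := by
      set A' := A.filter (fun y => ¬ y ∈ periodicPts Tc) with hA'
      have hidx : ∀ y ∈ A', ∃ i : ℕ, Tc^[i] x = y := fun y hy => hA y (Finset.mem_filter.1 hy).1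
      choose! f hf using hidx
      set M := (A'.image f).sup id + 1 with hM
      rcases A'.eq_empty_or_nonempty with he | hne
      · rw [he, sum_empty, mul_zero]
        exact hD0
      · have hmax : ∃ y ∈ A', f y + 1 = M := by
          obtain ⟨m, hm1, hm2⟩ := Finset.exists_mem_eq_sup (A'.image f) (hne.image f) id
          obtain ⟨y, hy, rfl⟩ := Finset.mem_image.1 hm1
          exact ⟨y, hy, by rw [hM, hm2]; rfl⟩
        obtain ⟨y₀, hy₀, hy₀'⟩ := hmax
        have hnp : ∀ i < M, Tc^[i] x ∉ periodicPts Tc := by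
          intro i hi hcon
          have h5 : Tc^[f y₀] x ∈ periodicPts Tc := iter_per (by omega) hcon
          rw [hf y₀ hy₀] at h5
          exact (Finset.mem_filter.1 hy₀).2 h5
        refine le_trans (mul_le_mul_of_nonneg_left ?_ (by positivity))
          (pre hc₂ (H₂ d) hS hxS hsg hD M hnp)
        have h6 : ∑ y ∈ A', 1 / |(y : ℝ)| = ∑ i ∈ A'.image f, 1 / |(Tc^[i] x : ℝ)| := by
          rw [sum_image]
          · exact sum_congr rfl fun y hy => by rw [hf y hy]
          · intro y hy y' hy' he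
            rw [← hf y hy, ← hf y' hy', he]
        rw [h6]
        refine sum_le_sum_of_subset_of_nonneg ?_ fun _ _ _ => by positivity
        intro i hi
        rw [mem_range, hM]
        have := Finset.le_sup (f := id) hi
        simp only [id] at this
        omega
    have h7 : 0 ≤ ∑ y ∈ A.filter (fun y => y ∈ periodicPts Tc), 1 / |(y : ℝ)| :=
      sum_nonneg fun _ _ => by positivity
    have h8 : 0 ≤ ∑ y ∈ A.filter (fun y => ¬ y ∈ periodicPts Tc), 1 / |(y : ℝ)| :=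
      sum_nonneg fun _ _ => by positivity
    rw [← hsplit]
    nlinarith
  · refine le_trans (mul_le_mul_of_nonneg_right ?_ (abs_nonneg _)) hD3
    linarith

end Pool.Agent.Lib.MP_edb5be_nt.PD.H26
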