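import Pool.Agent.Lib.MP_edb5be_nt.PD.Iface4
import Pool.Agent.Lib.MP_edb5be_nt.PD.H63.God
import Pool.Agent.Lib.MP_edb5be_nt.PD.H74.DensX
import Pool.Agent.Lib.MP_edb5be_nt.ND.H26.Final

/-!
Project PD (MP_edb5be_nt): the final theorem, deduced from `ZDenStatement` and `UCountTStatement`.
-/

set_option autoImplicit false

namespace Pool.Agent.Lib.MP_edb5be_nt.PD.H26

open Finset Pool.Agent.Lib.MP_edb5be_nt.EX Pool.Agent.Lib.MP_0a5adf_nt.TP Filter Topology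

/-- The integers which reach `x` in at most `K (log (X / |x|) + 1)` steps. -/
def PrT (K : ℝ) (x : ℤ) (X : ℝ) : Set ℤ :=
  {n : ℤ | ∃ k : ℕ, (k : ℝ) ≤ K * (Real.log (X / |(x : ℝ)|) + 1) ∧ Tc^[k] n = x}

/-- Positive density of the sets of predecessors. -/
def MainStatement : Prop :=
  ∃ c K : ℝ, 0 < c ∧ 0 < K ∧ ∀ (d : Bool) (x : ℤ), 0 < sg d * x → ¬ (3 : ℤ) ∣ x →
    (∃ D : ℝ, c / |(x : ℝ)| ≤ D ∧ ND.HasDens d (Pr x) D) ∧
    ∀ X : ℝ, |(x : ℝ)| ≤ X → c * (X / |(x : ℝ)|) ≤ ND.cnt d (PrT K x X) X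

theorem abs_eq (d : Bool) {n : ℤ} (h : 0 < sg d * n) : (|(n : ℝ)| : ℝ) = ((sg d * n : ℤ) : ℝ) := by
  rcases H74.sg_cases d with e | e <;> rw [e] at h ⊢
  · rw [one_mul] at h ⊢
    exact abs_of_pos (by exact_mod_cast h)
  · have h1 : n < 0 := by linarith
    rw [abs_of_neg (by exact_mod_cast h1)]
    push_cast
    ring

theorem pre_eq (d : Bool) {x : ℤ} (hx : 0 < sg d * x) (K X : ℝ) :
    {n : ℤ | |(n : ℝ)| ≤ X ∧
      ∃ k : ℕ, (k : ℝ) ≤ K * (Real.log (X / |(x : ℝ)|) + 1) ∧ Tc^[k] n = x} =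
    {n : ℤ | n ∈ PrT K x X ∧ 0 < sg d * n ∧ ((sg d * n : ℤ) : ℝ) ≤ X} := by
  ext n
  simp only [Set.mem_ofPred_eq, PrT]
  constructor
  · rintro ⟨h1, k, hk, h2⟩
    have h3 := H74.sign_of_iter d h2 hx
    refine ⟨⟨k, hk, h2⟩, h3, ?_⟩
    rw [← abs_eq d h3]
    exact h1
  · rintro ⟨⟨k, hk, h2⟩, h3, h4⟩
    rw [← abs_eq d h3] at h4
    exact ⟨h4, k, hk, h2⟩

theorem main (h1 : ND.ZDenStatement) (h2 : UCountTStatement) : MainStatement := by
  obtain ⟨C, -, hZ⟩ := h1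
  obtain ⟨c, K, hc, hK, H⟩ := h2
  refine ⟨c, K, hc, hK, fun d x hx h3 => ?_⟩
  have hcount : ∀ X : ℝ, |(x : ℝ)| ≤ X →
      c * (X / |(x : ℝ)|) ≤ ND.cnt d (PrT K x X) X := by
    intro X hX
    have h4 := H x h3 X hX
    rw [pre_eq d hx K X] at h4
    exact h4
  refine ⟨?_, hcount⟩
  obtain ⟨D, -, -, hD, -⟩ := hZ d (|(x : ℝ)| + 1) (Pr x) (le_add_of_nonneg_left (abs_nonneg _))
    (fun n hn => ND.H26.prd_inv x n (by
      rintro rfl
      linarith))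
  refine ⟨D, ?_, hD⟩
  have hx0 : x ≠ 0 := by
    rintro rfl
    exact h3 (dvd_zero 3)
  have hxp : 0 < |(x : ℝ)| := abs_pos.2 (by exact_mod_cast hx0)
  refine ge_of_tendsto hD ?_
  filter_upwards [eventually_ge_atTop |(x : ℝ)|] with X hX
  have hXp : 0 < X := by linarith
  rw [le_div_iff₀ hXp]
  have hsub : PrT K x X ⊆ Pr x := by
    rintro n ⟨k, -, hk⟩
    exact ⟨k, hk⟩
  calc c / |(x : ℝ)| * X = c * (X / |(x : ℝ)|) := by ring
    _ ≤ ND.cnt d (PrT K x X) X := hcount X hX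
    _ ≤ ND.cnt d (Pr x) X := ND.H38.cnt_mono d hsub X

/-- Sets of predecessors, and invariant sets. -/
def FinalStatement : Prop :=
  ∃ c K : ℝ, 0 < c ∧ 0 < K ∧ ∀ d : Bool,
    (∀ x : ℤ, 0 < sg d * x → ¬ (3 : ℤ) ∣ x →
      (∃ D : ℝ, c / |(x : ℝ)| ≤ D ∧ ND.HasDens d (Pr x) D) ∧
      ∀ X : ℝ, |(x : ℝ)| ≤ X → c * (X / |(x : ℝ)|) ≤ ND.cnt d (PrT K x X) X) ∧
    ∀ (S : Set ℤ) (x : ℤ), (∀ n : ℤ, n ∈ S ↔ Tc n ∈ S) → x ∈ S → 0 < sg d * x →
      ∃ D : ℝ, c / |(x : ℝ)| ≤ D ∧ ND.HasDens d S D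

theorem lead_sg (d : Bool) (x : ℤ) (hx : 0 < sg d * x) : ∃ (i : ℕ) (y : ℤ), Tc^[i] x = y ∧
    ¬ (3 : ℤ) ∣ y ∧ |y| ≤ 2 * |x| ∧ 0 < sg d * y := by
  have hx0 : x ≠ 0 := by
    rintro rfl
    simp at hx
  obtain ⟨i, y, hy1, hy2, hy3, hy4, hy5⟩ := H63.lead x.natAbs x hx0 le_rfl
  refine ⟨i, y, hy1, hy2, hy3, ?_⟩
  rcases H74.sg_cases d with e | e <;> rw [e] at hx ⊢
  · have := hy4 (by linarith)
    linarith
  · have := hy5 (by linarith)
    linarith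

theorem final (hz : ND.ZDenStatement) (h : MainStatement) : FinalStatement := by
  obtain ⟨C, -, hZ⟩ := hz
  obtain ⟨c, K, hc, hK, H⟩ := h
  refine ⟨c / 2, K, by positivity, hK, fun d => ⟨fun x hx h3 => ?_, fun S x hS hxS hx => ?_⟩⟩
  · obtain ⟨⟨D, hD1, hD2⟩, hX⟩ := H d x hx h3
    refine ⟨⟨D, le_trans ?_ hD1, hD2⟩, fun X hXx => le_trans ?_ (hX X hXx)⟩
    · exact div_le_div_of_nonneg_right (by linarith) (abs_nonneg _)
    · have h0 : 0 ≤ X / |(x : ℝ)| := div_nonneg ((abs_nonneg _).trans hXx) (abs_nonneg _)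
      nlinarith
  · obtain ⟨i, y, hy1, hy2, hy3, hsg⟩ := lead_sg d x hx
    obtain ⟨⟨D', hD', hD2⟩, -⟩ := H d y hsg hy2
    obtain ⟨D, -, -, hD, -⟩ := hZ d 1 S le_rfl (fun n _ => hS n)
    have hfwd : ∀ (j : ℕ) (n : ℤ), n ∈ S ↔ Tc^[j] n ∈ S := by
      intro j
      induction j with
      | zero => intro n; rfl
      | succ j ih =>
        intro n
        rw [hS n, ih (Tc n), Function.iterate_succ_apply]
    have hsub : Pr y ⊆ S := by
      rintro n ⟨k, hk⟩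
      rw [hfwd k n, hk, ← hy1, ← hfwd i x]
      exact hxS
    refine ⟨D, ?_, hD⟩
    have h3 : D' ≤ D := by
      refine le_of_tendsto_of_tendsto hD2 hD ?_
      filter_upwards [Filter.eventually_gt_atTop (0 : ℝ)] with X hX
      exact div_le_div_of_nonneg_right (ND.H38.cnt_mono d hsub X) hX.le
    have hy0 : y ≠ 0 := by
      rintro rfl
      exact hy2 (dvd_zero 3)
    have hx0 : x ≠ 0 := by
      rintro rfl
      simp at hx
    have hxp : 0 < |(x : ℝ)| := abs_pos.2 (by exact_mod_cast hx0)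
    have hyp : 0 < |(y : ℝ)| := abs_pos.2 (by exact_mod_cast hy0)
    have h4 : |(y : ℝ)| ≤ 2 * |(x : ℝ)| := by exact_mod_cast hy3
    calc c / 2 / |(x : ℝ)| = c / (2 * |(x : ℝ)|) := by rw [div_div]
      _ ≤ c / |(y : ℝ)| := div_le_div_of_nonneg_left hc.le hyp h4
      _ ≤ D' := hD'
      _ ≤ D := h3

/-- The integers whose trajectory ends in a cycle with an element outside `Kn`. -/
def Bas (Kn : Set ℤ) : Set ℤ := {n : ℤ | ∃ k : ℕ, Tc^[k] n ∈ Function.periodicPts Tc \ Kn}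

theorem equiv (h : FinalStatement) (Kn : Set ℤ) (h0 : (0 : ℤ) ∈ Kn) :
    (∀ x ∈ Function.periodicPts Tc, x ∈ Kn) ↔ ∀ d : Bool, ND.HasDens d (Bas Kn) 0 := by
  obtain ⟨c, K, hc, -, H⟩ := h
  constructor
  · intro hK d
    have hB : Bas Kn = ∅ := by
      ext n
      simp only [Bas, Set.mem_ofPred_eq, Set.mem_empty_iff_false, iff_false, not_exists]
      rintro k ⟨hk1, hk2⟩
      exact hk2 (hK _ hk1)
    rw [hB]
    unfold ND.HasDens
    have h1 : (fun X : ℝ => ND.cnt d ∅ X / X) = fun _ => (0 : ℝ) := by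
      ext X
      have : ND.cnt d ∅ X = 0 := by
        unfold ND.cnt
        simp
      rw [this, zero_div]
    rw [h1]
    exact tendsto_const_nhds
  · intro hd x hx
    by_contra hxK
    have hx0 : x ≠ 0 := by
      rintro rfl
      exact hxK h0
    obtain ⟨d, hsg⟩ : ∃ d : Bool, 0 < sg d * x := by
      rcases lt_or_gt_of_ne hx0 with h1 | h1
      · exact ⟨false, by simp only [sg]; norm_num; exact h1⟩
      · exact ⟨true, by simp only [sg]; norm_num; exact h1⟩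
    have hinv : ∀ n : ℤ, n ∈ Bas Kn ↔ Tc n ∈ Bas Kn := by
      intro n
      constructor
      · rintro ⟨k, ⟨p, hp, hpx⟩, hk2⟩
        -- go round the cycle once more
        refine ⟨k + p - 1, ?_⟩
        have h1 : Tc^[k + p - 1] (Tc n) = Tc^[k] n := by
          rw [← Function.iterate_succ_apply, show (k + p - 1).succ = p + k by omega,
            Function.iterate_add_apply]
          exact hpx
        rw [h1]
        exact ⟨⟨p, hp, hpx⟩, hk2⟩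
      · rintro ⟨k, hk⟩
        exact ⟨k + 1, by rw [Function.iterate_succ_apply]; exact hk⟩
    obtain ⟨D, hD1, hD2⟩ := (H d).2 (Bas Kn) x hinv ⟨0, hx, hxK⟩ hsg
    have h3 : D = 0 := tendsto_nhds_unique hD2 (hd d)
    have hxp : 0 < |(x : ℝ)| := abs_pos.2 (by exact_mod_cast hx0)
    have h4 : 0 < c / |(x : ℝ)| := by positivity
    linarith

end Pool.Agent.Lib.MP_edb5be_nt.PD.H26
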